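import Mathlib

namespace Pool.Agent.Results.MP_01ee34_gt.CapsBand

open Set

/-- the unit sphere `S^d` in `ℝ^{d+1}` -/
def Sph (d : ℕ) : Set (EuclideanSpace ℝ (Fin (d + 1))) := Metric.sphere 0 1

/-- `F` contains a congruent copy of `A`: the image of `A` under a linear isometry of
determinant one (a map in `SO`) -/
def ContainsCopy {V : Type} [NormedAddCommGroup V] [InnerProductSpace ℝ V] (F A : Set V) : Prop :=
  ∃ ρ : V ≃ₗᵢ[ℝ] V, LinearMap.det ρ.toLinearEquiv.toLinearMap = 1 ∧ ρ '' A ⊆ F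

/-- Bogatyi's statement for given `d` and `m` -/
def Bogatyi (d m : ℕ) : Prop :=
  ∀ F : Fin m → Set (EuclideanSpace ℝ (Fin (d + 1))), (∀ i, IsClosed (F i)) → ⋃ i, F i = Sph d →
    ∃ i, ∀ A : Finset (EuclideanSpace ℝ (Fin (d + 1))), (A : Set _) ⊆ Sph d →
      (A.card : ℤ) = d - m + 3 → ContainsCopy (F i) (A : Set _)

abbrev E := EuclideanSpace ℝ (Fin 3)

noncomputable def a1 : E := !₂[1, 0, 0]
noncomputable def a2 : E := !₂[-1 / 2, √3 / 2, 0]
noncomputable def a3 : E := !₂[-1 / 2, -(√3 / 2), 0]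
noncomputable def e2 : E := !₂[0, 1, 0]
noncomputable def e3 : E := !₂[0, 0, 1]

theorem mem_sph (x : E) : x ∈ Sph 2 ↔ x 0 ^ 2 + x 1 ^ 2 + x 2 ^ 2 = 1 := by
  rw [Sph, mem_sphere_zero_iff_norm, EuclideanSpace.norm_eq, Real.sqrt_eq_one, Fin.sum_univ_three]
  simp

theorem result : ¬ Bogatyi 2 2 := by
  intro h
  have s3 : √3 ^ 2 = 3 := Real.sq_sqrt (by norm_num)
  have s3p : 0 < √3 := by positivity
  have hc : Continuous fun x : E => x 0 ^ 2 := by fun_prop
  obtain ⟨i, hi⟩ := h ![Sph 2 ∩ {x | 0.3 ≤ x 0 ^ 2}, Sph 2 ∩ {x | x 0 ^ 2 ≤ 0.3}]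
    (by
      intro i
      fin_cases i
      · exact Metric.isClosed_sphere.inter (isClosed_le continuous_const hc)
      · exact Metric.isClosed_sphere.inter (isClosed_le hc continuous_const))
    (by
      ext x
      simp only [mem_iUnion, Fin.exists_fin_two, Matrix.cons_val_zero, Matrix.cons_val_one,
        mem_inter_iff, mem_ofPred_eq]
      rcases le_total 0.3 (x 0 ^ 2) with h | h <;> tauto)
  fin_cases i
  · have n12 : a1 ≠ a2 := fun h => by have := congrArg (· 0) h; simp [a1, a2] at this; linarith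
    have n13 : a1 ≠ a3 := fun h => by have := congrArg (· 0) h; simp [a1, a3] at this; linarith
    have n23 : a2 ≠ a3 := fun h => by have := congrArg (· 1) h; simp [a2, a3] at this; linarith
    obtain ⟨ρ, -, hρ⟩ := hi {a1, a2, a3} (by
      intro x hx
      simp only [Finset.coe_insert, Finset.coe_singleton, mem_insert_iff, mem_singleton_iff] at hx
      rw [mem_sph]
      rcases hx with rfl | rfl | rfl
      · simp [a1]
      · simp [a2]; nlinarith
      · simp [a3]; nlinarith) (by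
        rw [Finset.card_eq_three.2 ⟨a1, a2, a3, n12, n13, n23, rfl⟩]; norm_num)
    obtain ⟨p1, q1⟩ := hρ ⟨a1, by simp, rfl⟩
    obtain ⟨p2, q2⟩ := hρ ⟨a2, by simp, rfl⟩
    obtain ⟨p3, q3⟩ := hρ ⟨a3, by simp, rfl⟩
    rw [mem_sph] at p1 p2 p3
    have q1 : 0.3 ≤ ρ a1 0 ^ 2 := q1
    have q2 : 0.3 ≤ ρ a2 0 ^ 2 := q2
    have q3 : 0.3 ≤ ρ a3 0 ^ 2 := q3
    have hs : a1 + a2 + a3 = 0 := by
      ext j; fin_cases j <;> simp [a1, a2, a3]
      norm_num
    have h0 : ρ a1 0 + ρ a2 0 + ρ a3 0 = 0 := by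
      have : ρ a1 + ρ a2 + ρ a3 = 0 := by rw [← map_add, ← map_add, hs, map_zero]
      exact congrArg (· 0) this
    have r1 : ρ a1 0 ^ 2 ≤ 1 := by nlinarith [sq_nonneg (ρ a1 1), sq_nonneg (ρ a1 2)]
    have r2 : ρ a2 0 ^ 2 ≤ 1 := by nlinarith [sq_nonneg (ρ a2 1), sq_nonneg (ρ a2 2)]
    have r3 : ρ a3 0 ^ 2 ≤ 1 := by nlinarith [sq_nonneg (ρ a3 1), sq_nonneg (ρ a3 2)]
    generalize ρ a1 0 = x at *
    generalize ρ a2 0 = y at *
    generalize ρ a3 0 = z at *
    have key : ∀ u v : ℝ, 0.3 ≤ u ^ 2 → 0.3 ≤ v ^ 2 → (u + v) ^ 2 ≤ 1 → u * v < 0 := by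
      intro u v hu hv huv
      by_contra hn
      have hn : 0 ≤ u * v := le_of_not_gt hn
      have : 0.09 ≤ (u * v) ^ 2 := by rw [mul_pow]; nlinarith
      have : u * v ≤ 0.2 := by nlinarith
      nlinarith
    have k1 := key x y q1 q2 (by rw [show x + y = -z by linarith]; linarith [neg_sq z])
    have k2 := key x z q1 q3 (by rw [show x + z = -y by linarith]; linarith [neg_sq y])
    have k3 := key y z q2 q3 (by rw [show y + z = -x by linarith]; linarith [neg_sq x])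
    have := mul_pos_of_neg_of_neg k1 k2
    nlinarith
  · have n12 : a1 ≠ e2 := fun h => by have := congrArg (· 0) h; simp [a1, e2] at this
    have n13 : a1 ≠ e3 := fun h => by have := congrArg (· 0) h; simp [a1, e3] at this
    have n23 : e2 ≠ e3 := fun h => by have := congrArg (· 1) h; simp [e2, e3] at this
    obtain ⟨ρ, -, hρ⟩ := hi {a1, e2, e3} (by
      intro x hx
      simp only [Finset.coe_insert, Finset.coe_singleton, mem_insert_iff, mem_singleton_iff] at hx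
      rw [mem_sph]
      rcases hx with rfl | rfl | rfl
      · simp [a1]
      · simp [e2]
      · simp [e3]) (by
        rw [Finset.card_eq_three.2 ⟨a1, e2, e3, n12, n13, n23, rfl⟩]; norm_num)
    have q1 : ρ a1 0 ^ 2 ≤ 0.3 := (hρ ⟨a1, by simp, rfl⟩).2
    have q2 : ρ e2 0 ^ 2 ≤ 0.3 := (hρ ⟨e2, by simp, rfl⟩).2
    have q3 : ρ e3 0 ^ 2 ≤ 0.3 := (hρ ⟨e3, by simp, rfl⟩).2
    have hin : ∀ x : E, ρ x 0 = inner ℝ x (ρ.symm a1) := by
      intro x
      rw [← ρ.inner_map_map, ρ.apply_symm_apply]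
      simp [a1, PiLp.inner_apply, Fin.sum_univ_three]
    have hu : ρ.symm a1 ∈ Sph 2 := by
      rw [Sph, mem_sphere_zero_iff_norm, ρ.symm.norm_map, ← mem_sphere_zero_iff_norm]
      exact (mem_sph a1).2 (by simp [a1])
    rw [mem_sph] at hu
    rw [hin] at q1 q2 q3
    simp [a1, e2, e3, PiLp.inner_apply, Fin.sum_univ_three] at q1 q2 q3
    simp only [a1] at hu
    linarith

end Pool.Agent.Results.MP_01ee34_gt.CapsBand
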